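import Pool.Agent.N242.KK.Dim

set_option autoImplicit false

open scoped InnerProductSpace

namespace Pool.Agent.Results.MP_41729c_an.CloseDim

open Pool.Agent.H467F

variable {H : Type} [NormedAddCommGroup H] [InnerProductSpace ℂ H] [CompleteSpace H]

/-- The Kadison-Kastler distance of `M` and `N`: the Hausdorff distance (for the operator norm) of
their closed unit balls. -/
noncomputable def kkDist (M N : VonNeumannAlgebra H) : ℝ :=
  Metric.hausdorffDist {x : H →L[ℂ] H | x ∈ M ∧ ‖x‖ ≤ 1} {x : H →L[ℂ] H | x ∈ N ∧ ‖x‖ ≤ 1}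

/-- Let `M` be a II₁ factor with trace `τ`. The vectors `ξ i` and the projections `e i` of `M` form a
tracial orthogonal family: `⟪ξ i, x ξ i⟫ = τ (x e i)` for `x` in `M` (so that the closure of `M ξ i`
is a copy of the left module `L²(M) e i`), and the submodules `M ξ i` are pairwise orthogonal. -/
structure IsTracialFamily {I : Type} (M : VonNeumannAlgebra H) (τ : Elt M → ℂ) (ξ : I → H)
    (e : I → Elt M) : Prop where
  proj : ∀ i, star (e i) = e i ∧ e i * e i = e i
  diag : ∀ i, ∀ x : Elt M, ⟪ξ i, (x : H →L[ℂ] H) (ξ i)⟫_ℂ = τ (x * e i)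
  orth : ∀ i j, i ≠ j → ∀ x : Elt M, ⟪ξ i, (x : H →L[ℂ] H) (ξ j)⟫_ℂ = 0

/-- A basis of the left `M`-module `H`: a tracial orthogonal family whose submodules `M ξ i` span a
dense subspace of `H` (only `0` is orthogonal to all of them), so that `H` is the direct sum of the
modules `L²(M) e i`. -/
structure IsModuleBasis {I : Type} (M : VonNeumannAlgebra H) (τ : Elt M → ℂ) (ξ : I → H)
    (e : I → Elt M) : Prop extends IsTracialFamily M τ ξ e where
  total : ∀ ζ : H, (∀ i, ∀ x : Elt M, ⟪(x : H →L[ℂ] H) (ξ i), ζ⟫_ℂ = 0) → ζ = 0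

/-- The Murray-von Neumann dimension `dim_M(H)` in `[0, ∞]` of the left module `H` over the II₁
factor `M` with trace `τ`: the supremum of `∑ τ (e i)` over the finite tracial orthogonal families. -/
noncomputable def mvDim (M : VonNeumannAlgebra H) (τ : Elt M → ℂ) : ENNReal :=
  ⨆ (n : ℕ) (ξ : Fin n → H) (e : Fin n → Elt M) (_ : IsTracialFamily M τ ξ e),
    ∑ i, ENNReal.ofReal (τ (e i)).re

theorem trFam_iff {I : Type} {M : VonNeumannAlgebra H} {τ : Elt M → ℂ} {ξ : I → H}
    {e : I → Elt M} : IsTracialFamily M τ ξ e ↔ N242.KK.TrFam M τ ξ e :=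
  ⟨fun h => ⟨h.proj, h.diag, h.orth⟩, fun h => ⟨h.prj, h.diag, h.orth⟩⟩

theorem mvDim_eq (M : VonNeumannAlgebra H) (τ : Elt M → ℂ) :
    mvDim M τ = N242.KK.mvDim M τ := by
  unfold mvDim N242.KK.mvDim
  refine iSup_congr fun n => iSup_congr fun ξ => iSup_congr fun e => ?_
  exact iSup_congr_Prop trFam_iff fun _ => rfl

/-- a normal positive functional is linear -/
theorem exists_linear {N : VonNeumannAlgebra H} {t : Elt N → ℂ} (h : IsNormalPositive N t) :
    ∃ τ : Elt N →ₗ[ℂ] ℂ, (τ : Elt N → ℂ) = t := by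
  obtain ⟨ξ, hξ, ht⟩ := h
  have hs : ∀ x : Elt N, Summable fun k => ⟪ξ k, (x : H →L[ℂ] H) (ξ k)⟫_ℂ := by
    intro x
    refine Summable.of_norm_bounded (hξ.mul_left ‖(x : H →L[ℂ] H)‖) fun k => ?_
    calc _ ≤ ‖ξ k‖ * ‖(x : H →L[ℂ] H) (ξ k)‖ := norm_inner_le_norm _ _
      _ ≤ ‖ξ k‖ * (‖(x : H →L[ℂ] H)‖ * ‖ξ k‖) :=
        mul_le_mul_of_nonneg_left (ContinuousLinearMap.le_opNorm _ _) (norm_nonneg _)
      _ = ‖(x : H →L[ℂ] H)‖ * ‖ξ k‖ ^ 2 := by ring
  refine ⟨{ toFun := t, map_add' := fun x y => ?_, map_smul' := fun c x => ?_ }, rfl⟩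
  · rw [ht, ht, ht, ← (hs x).tsum_add (hs y)]
    exact tsum_congr fun k => inner_add_right _ _ _
  · rw [ht, ht, RingHom.id_apply, smul_eq_mul, ← tsum_mul_left]
    exact tsum_congr fun k => inner_smul_right _ _ _

/-- There is a universal `δ > 0` such that II₁ factors `M`, `N` on a Hilbert space `H` with
Kadison-Kastler distance less than `δ` have the same coupling constant: `dim_M(H) = dim_N(H)`.
(Moreover these dimensions are the sums `∑ τ (e i)` over arbitrary bases.) -/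
theorem result : ∃ δ : ℝ, 0 < δ ∧
    ∀ (H : Type) [NormedAddCommGroup H] [InnerProductSpace ℂ H] [CompleteSpace H]
      (M N : VonNeumannAlgebra H) (τ : Elt M → ℂ) (σ : Elt N → ℂ),
      IsIIOneFactor M τ → IsIIOneFactor N σ → kkDist M N < δ →
      mvDim M τ = mvDim N σ ∧
      (∀ (I : Type) (ξ : I → H) (e : I → Elt M), IsModuleBasis M τ ξ e →
        ∑' i, ENNReal.ofReal (τ (e i)).re = mvDim M τ) ∧
      (∀ (I : Type) (ξ : I → H) (e : I → Elt N), IsModuleBasis N σ ξ e →
        ∑' i, ENNReal.ofReal (σ (e i)).re = mvDim N σ) := by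
  refine ⟨1 / (10 ^ 14 * N242.KK.KC), ?_, ?_⟩
  · have := N242.KK.KC_pos
    positivity
  · intro H _ _ _ M N τ' σ' hM hN hd
    obtain ⟨τ, rfl⟩ := exists_linear hM.normal
    obtain ⟨σ, rfl⟩ := exists_linear hN.normal
    refine ⟨?_, ?_, ?_⟩
    · rw [mvDim_eq, mvDim_eq]
      exact N242.KK.mvDim_eq hM hN hd
    · intro I ξ e h
      rw [mvDim_eq]
      exact (N242.KK.mvDim_basis hM (trFam_iff.1 h.toIsTracialFamily) h.total).symm
    · intro I ξ e h
      rw [mvDim_eq]
      exact (N242.KK.mvDim_basis hN (trFam_iff.1 h.toIsTracialFamily) h.total).symm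

end Pool.Agent.Results.MP_41729c_an.CloseDim
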